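import Pool.Agent.Helper36.RN.Goals

/-! # Packet POL (MP_c98eff_gt): polynomials on the sphere `Sⁿ` -/

set_option autoImplicit false

namespace Pool.Agent.Helper93.RN

open Set Filter Topology MeasureTheory Pool.Agent.Helper47.RFn Pool.Agent.Helper36.RN
open scoped ContDiff

variable {n : ℕ}

/-- the Kronecker symbol -/
noncomputable def dl (i j : Fin (n + 1)) : XS n := if i = j then 1 else 0

theorem Ld_nu (i k j : Fin (n + 1)) :
    Ld (i, k) (nu j) = dl k j * nu i - dl i j * nu k := by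
  rw [Ld_eq, Ee_nu, Ee_nu, ← dl, ← dl]
  ring

theorem Ld_dl (p : KK n) (i j : Fin (n + 1)) (u : XS n) : Ld p (dl i j * u) = dl i j * Ld p u := by
  rw [dl]
  split_ifs
  · rw [one_mul, one_mul]
  · rw [zero_mul, zero_mul, map_zero]

theorem sum_dl (j : Fin (n + 1)) (f : Fin (n + 1) → XS n) : ∑ i, dl i j * f i = f j := by
  simp only [dl, ite_mul, one_mul, zero_mul]
  rw [Finset.sum_ite_eq' Finset.univ j]
  simp

theorem dl_self (j : Fin (n + 1)) : dl j j = (1 : XS n) := by
  rw [dl, if_pos rfl]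

theorem dl_comm (i j : Fin (n + 1)) : (dl i j : XS n) = dl j i := by
  rw [dl, dl]
  simp only [eq_comm]

theorem Lp0_nu (j : Fin (n + 1)) : Lp0 (nu j) = (-(2 * (n : ℝ))) • nu j := by
  have h : ∀ i k : Fin (n + 1), Ld (i, k) (Ld (i, k) (nu j)) =
      dl k j * (dl i k * nu i) - dl k j * nu k - dl i j * nu i + dl i j * (dl k i * nu k) := by
    intro i k
    rw [Ld_nu, map_sub, Ld_dl, Ld_dl, Ld_nu, Ld_nu, dl_self, dl_self, dl_comm k i]
    ring
  unfold Lp0
  rw [Fintype.sum_prod_type]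
  simp only [h, Finset.sum_add_distrib, Finset.sum_sub_distrib, sum_dl, Finset.sum_const,
    Finset.card_univ, Fintype.card_fin]
  have h2 : ∑ x : Fin (n + 1), ∑ i : Fin (n + 1), dl x j * (dl i x * nu i) = (nu j : XS n) := by
    have e : ∀ x : Fin (n + 1), ∑ i : Fin (n + 1), dl x j * (dl i x * nu i)
        = dl x j * (nu x : XS n) := by
      intro x
      rw [← Finset.mul_sum, sum_dl]
    simp only [e, sum_dl]
  rw [h2]
  have h5 : (n + 1) • (nu j : XS n) = ((n : ℝ) + 1) • nu j := by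
    rw [← Nat.cast_smul_eq_nsmul ℝ]
    push_cast
    rfl
  rw [← Finset.smul_sum, sum_dl, h5]
  module

theorem Lp0_mul (u v : XS n) :
    Lp0 (u * v) = u * Lp0 v + v * Lp0 u + (2 : ℝ) • ∑ p, Ld p u * Ld p v := by
  unfold Lp0
  rw [Finset.mul_sum, Finset.mul_sum, Finset.smul_sum, ← Finset.sum_add_distrib,
    ← Finset.sum_add_distrib]
  refine Finset.sum_congr rfl fun p _ => ?_
  simp only [Derivation.leibniz, smul_eq_mul, map_add, Algebra.smul_def, map_ofNat]
  ring

theorem grad (j k : Fin (n + 1)) :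
    (∑ p, Ld p (nu j) * Ld p (nu k)) + (2 : ℝ) • (nu j * nu k) = (2 : ℝ) • dl j k := by
  have h : ∀ a b : Fin (n + 1), Ld (a, b) (nu j) * Ld (a, b) (nu k) =
      dl b j * (dl b k * nu a ^ 2) - dl b j * (dl a k * (nu a * nu b))
        - dl a j * (dl b k * (nu a * nu b)) + dl a j * (dl a k * nu b ^ 2) := by
    intro a b
    rw [Ld_nu, Ld_nu]
    ring
  rw [Fintype.sum_prod_type]
  simp only [h, Finset.sum_add_distrib, Finset.sum_sub_distrib, sum_dl]
  rw [← Finset.mul_sum, nu_sq]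
  have h4 : ∑ x : Fin (n + 1), ∑ y : Fin (n + 1), dl x j * (dl y k * (nu x * nu y))
      = nu j * (nu k : XS n) := by
    have e : ∀ x : Fin (n + 1), ∑ y : Fin (n + 1), dl x j * (dl y k * (nu x * nu y))
        = dl x j * ((nu x * nu k : XS n)) := by
      intro x
      rw [← Finset.mul_sum, sum_dl]
    simp only [e, sum_dl]
  rw [h4]
  have h3 : ∑ x : Fin (n + 1), ∑ y : Fin (n + 1), dl x j * (dl x k * nu y ^ 2) = dl j k := by
    have e : ∀ x : Fin (n + 1), ∑ y : Fin (n + 1), dl x j * (dl x k * nu y ^ 2)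
        = dl x j * (dl x k : XS n) := by
      intro x
      rw [← Finset.mul_sum, ← Finset.mul_sum, nu_sq, mul_one]
    simp only [e, sum_dl]
  rw [h3]
  simp only [Algebra.smul_def, map_ofNat]
  ring

/-- polynomials of degree at most `N` -/
noncomputable def VV (n : ℕ) : ℕ → Submodule ℝ (XS n)
  | 0 => Submodule.span ℝ {1}
  | N + 1 => VV n N ⊔ ⨆ j : Fin (n + 1), (VV n N).map (LinearMap.mulLeft ℝ (nu j))

theorem VV_fin (N : ℕ) : FiniteDimensional ℝ (VV n N) := by
  induction N with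
  | zero =>
    rw [VV]
    infer_instance
  | succ N ih =>
    rw [VV]
    infer_instance

theorem VV_le (N : ℕ) : VV n N ≤ VV n (N + 1) := by
  rw [VV]
  exact le_sup_left

theorem VV_mono {N m : ℕ} (h : N ≤ m) : VV n N ≤ VV n m := by
  induction h with
  | refl => exact le_rfl
  | step _ ih => exact ih.trans (VV_le _)

theorem X_mul_mem {N : ℕ} {w : XS n} (hw : w ∈ VV n N) (j : Fin (n + 1)) :
    nu j * w ∈ VV n (N + 1) := by
  rw [VV]
  refine Submodule.mem_sup_right (Submodule.mem_iSup_of_mem j ?_)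
  exact ⟨w, hw, rfl⟩

theorem VV_ind {N : ℕ} (S : Submodule ℝ (XS n)) (h1 : ∀ w ∈ VV n N, w ∈ S)
    (h2 : ∀ j, ∀ w ∈ VV n N, nu j * w ∈ S) : ∀ w ∈ VV n (N + 1), w ∈ S := by
  intro w hw
  have h : VV n (N + 1) ≤ S := by
    rw [VV]
    refine sup_le h1 (iSup_le fun j => ?_)
    rintro _ ⟨v, hv, rfl⟩
    exact h2 j v hv
  exact h hw

theorem Ld_V0 {v : XS n} (hv : v ∈ VV n 0) (p : KK n) : Ld p v = 0 := by
  rw [VV, Submodule.mem_span_singleton] at hv
  obtain ⟨c, rfl⟩ := hv
  rw [Derivation.map_smul, Derivation.map_one_eq_zero, smul_zero]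

theorem dl_mem {N : ℕ} {w : XS n} (hw : w ∈ VV n N) (i j : Fin (n + 1)) : dl i j * w ∈ VV n N := by
  rw [dl]
  split_ifs
  · rwa [one_mul]
  · rw [zero_mul]
    exact Submodule.zero_mem _

theorem Ld_X_mem {N : ℕ} {w : XS n} (hw : w ∈ VV n N) (p : KK n) (j : Fin (n + 1)) :
    w * Ld p (nu j) ∈ VV n (N + 1) := by
  obtain ⟨i, k⟩ := p
  have e : w * Ld (i, k) (nu j) = dl k j * (nu i * w) - dl i j * (nu k * w) := by
    rw [Ld_nu]
    ring
  rw [e]
  exact Submodule.sub_mem _ (dl_mem (X_mul_mem hw i) _ _) (dl_mem (X_mul_mem hw k) _ _)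

theorem Ld_mem (N : ℕ) (p : KK n) : ∀ v ∈ VV n N, Ld p v ∈ VV n N := by
  induction N with
  | zero =>
    intro v hv
    rw [Ld_V0 hv]
    exact Submodule.zero_mem _
  | succ N ih =>
    refine VV_ind ((VV n (N + 1)).comap (Ld p).toLinearMap) (fun w hw => VV_le N (ih w hw)) ?_
    intro j w hw
    show Ld p (nu j * w) ∈ VV n (N + 1)
    rw [Derivation.leibniz, smul_eq_mul, smul_eq_mul]
    exact Submodule.add_mem _ (X_mul_mem (ih w hw) j) (Ld_X_mem hw p j)

theorem Lp0_mem {N : ℕ} {v : XS n} (hv : v ∈ VV n N) : Lp0 v ∈ VV n N :=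
  Submodule.sum_mem _ fun p _ => Ld_mem N p _ (Ld_mem N p _ hv)

theorem Lp0_V0 {v : XS n} (hv : v ∈ VV n 0) : Lp0 v = 0 := by
  unfold Lp0
  exact Finset.sum_eq_zero fun p _ => by rw [Ld_V0 hv, map_zero]

theorem partA (N : ℕ) (j : Fin (n + 1)) : ∀ w ∈ VV n N,
    (∑ p, Ld p (nu j) * Ld p w) + (2 * (N : ℝ)) • (nu j * w) ∈ VV n N := by
  induction N with
  | zero =>
    intro w hw
    simp [Ld_V0 hw]
  | succ N ih =>
    let D : XS n →ₗ[ℝ] XS n := (∑ p, (LinearMap.mulLeft ℝ (Ld p (nu j))) ∘ₗ (Ld p).toLinearMap)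
      + (2 * ((N + 1 : ℕ) : ℝ)) • LinearMap.mulLeft ℝ (nu j)
    have hD : ∀ w, D w = (∑ p, Ld p (nu j) * Ld p w) + (2 * ((N + 1 : ℕ) : ℝ)) • (nu j * w) := by
      intro w
      simp only [D, LinearMap.add_apply, LinearMap.sum_apply]
      rfl
    have key := VV_ind (N := N) ((VV n (N + 1)).comap D) ?_ ?_
    · intro w hw
      have := key w hw
      rw [Submodule.mem_comap, hD] at this
      exact this
    · intro w hw
      rw [Submodule.mem_comap, hD]
      have h1 := ih w hw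
      have h2 : (∑ p, Ld p (nu j) * Ld p w) + (2 * ((N + 1 : ℕ) : ℝ)) • (nu j * w)
          = ((∑ p, Ld p (nu j) * Ld p w) + (2 * (N : ℝ)) • (nu j * w))
            + (2 : ℝ) • (nu j * w) := by
        push_cast
        module
      rw [h2]
      exact Submodule.add_mem _ (VV_le N h1) (Submodule.smul_mem _ _ (X_mul_mem hw j))
    · intro k w hw
      rw [Submodule.mem_comap, hD]
      have h1 := ih w hw
      have h0 : ∑ p, Ld p (nu j) * Ld p (nu k * w)
          = nu k * (∑ p, Ld p (nu j) * Ld p w) + w * ∑ p, Ld p (nu j) * Ld p (nu k) := by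
        rw [Finset.mul_sum, Finset.mul_sum, ← Finset.sum_add_distrib]
        refine Finset.sum_congr rfl fun p _ => ?_
        rw [Derivation.leibniz, smul_eq_mul, smul_eq_mul]
        ring
      have h2 : (∑ p, Ld p (nu j) * Ld p (nu k * w)) + (2 * ((N + 1 : ℕ) : ℝ)) • (nu j * (nu k * w))
          = nu k * ((∑ p, Ld p (nu j) * Ld p w) + (2 * (N : ℝ)) • (nu j * w))
            + (2 : ℝ) • (dl j k * w) := by
        have h3 := congrArg (w * ·) (grad j k)
        simp only [Algebra.smul_def, map_ofNat] at h3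
        rw [h0]
        simp only [Algebra.smul_def]
        push_cast
        simp only [map_ofNat] at h3 ⊢
        linear_combination h3
      rw [h2]
      exact Submodule.add_mem _ (X_mul_mem h1 k)
        (Submodule.smul_mem _ _ (dl_mem (VV_le N hw) _ _))

theorem partB (N : ℕ) : ∀ w ∈ VV n (N + 1),
    Lp0 w + (2 * ((N : ℝ) + 1) * ((N : ℝ) + n)) • w ∈ VV n N := by
  have step : ∀ N : ℕ, (∀ w ∈ VV n N, ∀ j,
      nu j * (Lp0 w + (2 * (N : ℝ) * ((N : ℝ) + n - 1)) • w) ∈ VV n N) →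
      ∀ w ∈ VV n (N + 1), Lp0 w + (2 * ((N : ℝ) + 1) * ((N : ℝ) + n)) • w ∈ VV n N := by
    intro N hP
    let D : XS n →ₗ[ℝ] XS n := (∑ p, (Ld p).toLinearMap ∘ₗ (Ld p).toLinearMap)
      + (2 * ((N : ℝ) + 1) * ((N : ℝ) + n)) • LinearMap.id
    have hD : ∀ w, D w = Lp0 w + (2 * ((N : ℝ) + 1) * ((N : ℝ) + n)) • w := by
      intro w
      simp only [D, LinearMap.add_apply, LinearMap.sum_apply]
      rfl
    have key := VV_ind (N := N) ((VV n N).comap D) ?_ ?_
    · intro w hw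
      have := key w hw
      rw [Submodule.mem_comap, hD] at this
      exact this
    · intro w hw
      rw [Submodule.mem_comap, hD]
      exact Submodule.add_mem _ (Lp0_mem hw) (Submodule.smul_mem _ _ hw)
    · intro j w hw
      rw [Submodule.mem_comap, hD]
      have h1 := partA N j w hw
      have h2 := hP w hw j
      have h3 : Lp0 (nu j * w) + (2 * ((N : ℝ) + 1) * ((N : ℝ) + n)) • (nu j * w)
          = nu j * (Lp0 w + (2 * (N : ℝ) * ((N : ℝ) + n - 1)) • w)
            + (2 : ℝ) • ((∑ p, Ld p (nu j) * Ld p w) + (2 * (N : ℝ)) • (nu j * w)) := by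
        rw [Lp0_mul, Lp0_nu]
        simp only [Algebra.smul_def, map_add, map_sub, map_mul, map_neg, map_one, map_ofNat,
          map_natCast]
        ring
      rw [h3]
      exact Submodule.add_mem _ h2 (Submodule.smul_mem _ _ h1)
  have hP : ∀ N : ℕ, ∀ w ∈ VV n N, ∀ j,
      nu j * (Lp0 w + (2 * (N : ℝ) * ((N : ℝ) + n - 1)) • w) ∈ VV n N := by
    intro N
    induction N with
    | zero =>
      intro w hw j
      simp [Lp0_V0 hw]
    | succ N ih =>
      intro w hw j
      have h := X_mul_mem (step N ih w hw) j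
      have e : (2 * ((N + 1 : ℕ) : ℝ) * (((N + 1 : ℕ) : ℝ) + n - 1))
          = 2 * ((N : ℝ) + 1) * ((N : ℝ) + n) := by
        push_cast
        ring
      rw [e]
      exact h
  exact step N (hP N)

theorem mul_mem {N m : ℕ} {v w : XS n} (hv : v ∈ VV n N) (hw : w ∈ VV n m) :
    v * w ∈ VV n (N + m) := by
  induction m generalizing w with
  | zero =>
    rw [VV, Submodule.mem_span_singleton] at hw
    obtain ⟨c, rfl⟩ := hw
    rw [mul_smul_comm, mul_one]
    exact Submodule.smul_mem _ _ hv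
  | succ m ih =>
    refine VV_ind ((VV n (N + (m + 1))).comap (LinearMap.mulLeft ℝ v)) ?_ ?_ w hw
    · intro w hw
      exact VV_mono (show N + m ≤ N + (m + 1) by omega) (ih hw)
    · intro j w hw
      show v * (nu j * w) ∈ VV n (N + (m + 1))
      have h : v * (nu j * w) = nu j * (v * w) := by ring
      rw [h]
      exact X_mul_mem (ih hw) j

theorem one_mem_VV : (1 : XS n) ∈ VV n 0 := by
  rw [VV]
  exact Submodule.mem_span_singleton_self 1

/-- the unit sphere -/
abbrev SS (n : ℕ) : Type := Metric.sphere (0 : EE n) 1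

theorem ne_of_SS (x : SS n) : (x : EE n) ≠ 0 := by
  intro h0
  have h1 : ‖(x : EE n)‖ = 1 := by
    have := x.2
    rwa [mem_sphere_zero_iff_norm] at this
  rw [h0, norm_zero] at h1
  exact zero_ne_one h1

/-- a point of the sphere as a nonzero vector -/
def om (x : SS n) : Om n := ⟨x.1, ne_of_SS x⟩

/-- polynomials on the unit sphere -/
noncomputable def SA (n : ℕ) : Subalgebra ℝ C(SS n, ℝ) where
  carrier := {g | ∃ N, ∃ v ∈ VV n N, ∀ x : SS n, g x = v.1 (om x)}
  mul_mem' := by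
    rintro g h ⟨N, v, hv, hg⟩ ⟨m, w, hw, hh⟩
    refine ⟨N + m, v * w, mul_mem hv hw, fun x => ?_⟩
    show g x * h x = v.1 (om x) * w.1 (om x)
    rw [hg, hh]
  add_mem' := by
    rintro g h ⟨N, v, hv, hg⟩ ⟨m, w, hw, hh⟩
    refine ⟨N + m, v + w, Submodule.add_mem _ (VV_mono (by omega) hv) (VV_mono (by omega) hw),
      fun x => ?_⟩
    show g x + h x = v.1 (om x) + w.1 (om x)
    rw [hg, hh]
  algebraMap_mem' := by
    intro c
    refine ⟨0, c • (1 : XS n), Submodule.smul_mem _ _ one_mem_VV, fun x => ?_⟩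
    show c = c * 1
    rw [mul_one]

/-- restriction to the unit sphere -/
noncomputable def rs (u : XS n) : C(SS n, ℝ) where
  toFun x := ext u.1 x
  continuous_toFun := by
    have h : ContinuousOn (ext u.1) {0}ᶜ := (sm u).cd.continuousOn
    exact h.comp_continuous continuous_subtype_val fun x => ne_of_SS x

theorem rs_apply (u : XS n) (x : SS n) : rs u x = u.1 (om x) := ext_apply u.1 (om x)

theorem nu_om (j : Fin (n + 1)) (x : SS n) : (nu j).1 (om x) = x.1 j := by
  rw [nu_apply]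
  have h1 : ‖(x : EE n)‖ = 1 := by
    have := x.2
    rwa [mem_sphere_zero_iff_norm] at this
  show nn j x.1 = x.1 j
  rw [nn, h1]
  simp

theorem sep : (SA n).SeparatesPoints := by
  intro x y hxy
  by_contra hcon
  apply hxy
  apply Subtype.ext
  ext j
  by_contra hj
  apply hcon
  refine ⟨fun z => rs (nu j) z, ⟨rs (nu j), ?_, rfl⟩, ?_⟩
  · refine ⟨1, nu j, ?_, fun x => rs_apply _ _⟩
    have := X_mul_mem (one_mem_VV (n := n)) j
    rwa [mul_one] at this
  · show rs (nu j) x ≠ rs (nu j) y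
    rw [rs_apply, rs_apply, nu_om, nu_om]
    exact hj

theorem dens (u : XS n) (δ : ℝ) (hδ : 0 < δ) :
    ∃ N, ∃ v ∈ VV n N, ∀ x, |u.1 x - v.1 x| ≤ δ := by
  obtain ⟨⟨g, N, v, hv, hg⟩, hgu⟩ :=
    ContinuousMap.exists_mem_subalgebra_near_continuous_of_separatesPoints (SA n) sep
      (rs u) (rs u).continuous δ hδ
  refine ⟨N, v, hv, fun x => ?_⟩
  have hx0 : 0 < ‖x.1‖ := norm_pos_iff.2 x.2
  have hy : (‖x.1‖⁻¹ • x.1) ∈ Metric.sphere (0 : EE n) 1 := by
    rw [mem_sphere_zero_iff_norm, norm_smul, norm_inv, norm_norm, inv_mul_cancel₀ hx0.ne']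
  have h := hgu ⟨_, hy⟩
  have key : ∀ w : XS n, w.1 (om ⟨_, hy⟩) = w.1 x := by
    intro w
    have h1 : ext w.1 (‖x.1‖⁻¹ • x.1) = ext w.1 x.1 := (sm w).hom _ x.1 (inv_pos.2 hx0)
    rw [ext_apply] at h1
    rw [← h1]
    exact (ext_apply w.1 (om ⟨_, hy⟩)).symm
  have h3 : g ⟨_, hy⟩ = v.1 x := by rw [hg, key]
  have h4 : rs u ⟨_, hy⟩ = u.1 x := by rw [rs_apply, key]
  rw [Real.norm_eq_abs] at h
  have h5 : |v.1 x - u.1 x| < δ := by
    rw [← h3, ← h4]
    exact h
  rw [abs_sub_comm]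
  exact h5.le

theorem pol : Pool.Agent.Helper36.RN.G_POL := by
  intro n _
  exact ⟨VV n, VV_fin, VV_le, fun v hv => Lp0_V0 hv, Ld_mem, partB, dens⟩

end Pool.Agent.Helper93.RN
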