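import Pool.Agent.Helper36.RN.GoalsG

/-! # Packet GAU (MP_c98eff_gt): gauge covariance of the Ricci tensor -/

set_option autoImplicit false

namespace Pool.Agent.Helper93.RN

open Pool.Agent.Helper47.RFn Pool.Agent.Helper36.RN Matrix

section Der

variable {𝒜 : Type} [CommRing 𝒜] [Algebra ℝ 𝒜]

/-- entrywise derivative of a matrix -/
def D (δ : Derivation ℝ 𝒜 𝒜) {l m : Type} (M : Matrix l m 𝒜) : Matrix l m 𝒜 := fun i j => δ (M i j)

theorem D_mul (δ : Derivation ℝ 𝒜 𝒜) {l m k : Type} [Fintype m] (M : Matrix l m 𝒜)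
    (N : Matrix m k 𝒜) : D δ (M * N) = D δ M * N + M * D δ N := by
  ext i j
  simp only [D, Matrix.mul_apply, Matrix.add_apply, map_sum, Derivation.leibniz, smul_eq_mul]
  rw [← Finset.sum_add_distrib]
  refine Finset.sum_congr rfl fun f _ => ?_
  ring

theorem D_add (δ : Derivation ℝ 𝒜 𝒜) {l m : Type} (M N : Matrix l m 𝒜) :
    D δ (M + N) = D δ M + D δ N := by
  ext i j
  simp only [D, Matrix.add_apply, map_add]

theorem D_one (δ : Derivation ℝ 𝒜 𝒜) {l : Type} [DecidableEq l] :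
    D δ (1 : Matrix l l 𝒜) = 0 := by
  ext i j
  simp only [D, Matrix.one_apply, Matrix.zero_apply]
  split_ifs
  · exact Derivation.map_one_eq_zero δ
  · exact map_zero δ

theorem D_transpose (δ : Derivation ℝ 𝒜 𝒜) {l m : Type} (M : Matrix l m 𝒜) :
    D δ Mᵀ = (D δ M)ᵀ := rfl

variable {n : ℕ} (e : Ix n → Derivation ℝ 𝒜 𝒜) (n0 : Ix n → 𝒜)

/-- curvature as a matrix -/
theorem F_mat (w : Ix n → Ix n → Ix n → 𝒜) (W : Ix n → Matrix (Ix n) (Ix n) 𝒜)
    (hW : ∀ i, W i = Matrix.of (w i)) (i j : Ix n) :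
    Matrix.of (TC.F e n0 w i j) = D (e i) (W j) - D (e j) (W i) + (W j * W i - W i * W j)
      - (n0 i • W j - n0 j • W i) := by
  ext c d
  simp only [hW, TC.F, D, Matrix.of_apply, Matrix.sub_apply, Matrix.add_apply, Matrix.mul_apply,
    Matrix.smul_apply, smul_eq_mul, Finset.sum_sub_distrib]

/-- torsion as a row -/
theorem T_mat (θ : Ix n → Ix n → 𝒜) (w : Ix n → Ix n → Ix n → 𝒜)
    (R : Ix n → Matrix (Fin 1) (Ix n) 𝒜) (W : Ix n → Matrix (Ix n) (Ix n) 𝒜)
    (hR : ∀ i, R i = Matrix.of (fun _ => θ i)) (hW : ∀ i, W i = Matrix.of (w i)) (i j : Ix n) :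
    (Matrix.of (fun _ => TC.T e n0 θ w i j) : Matrix (Fin 1) (Ix n) 𝒜) =
      D (e i) (R j) - D (e j) (R i) + (R j * W i - R i * W j) - (n0 i • R j - n0 j • R i) := by
  ext c d
  simp only [hR, hW, TC.T, D, Matrix.of_apply, Matrix.sub_apply, Matrix.add_apply, Matrix.mul_apply,
    Matrix.smul_apply, smul_eq_mul, Finset.sum_sub_distrib]

end Der

section Alg

variable {𝒜 : Type} [CommRing 𝒜] [Algebra ℝ 𝒜] {n : ℕ}

/-- transformed curvature -/
theorem F_gauge (e : Ix n → Derivation ℝ 𝒜 𝒜) (n0 : Ix n → 𝒜) (hB : BH e n0)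
    (P : Matrix (Ix n) (Ix n) 𝒜) (W W' : Ix n → Matrix (Ix n) (Ix n) 𝒜)
    (hPQ : P * Pᵀ = 1) (hQP : Pᵀ * P = 1)
    (hW' : ∀ i, W' i = D (e i) P * Pᵀ + P * W i * Pᵀ) (i j : Ix n) :
    D (e i) (W' j) - D (e j) (W' i) + (W' j * W' i - W' i * W' j) - (n0 i • W' j - n0 j • W' i) =
    P * (D (e i) (W j) - D (e j) (W i) + (W j * W i - W i * W j)
      - (n0 i • W j - n0 j • W i)) * Pᵀ := by
  have hc : D (e i) (D (e j) P) = D (e j) (D (e i) P) + (n0 i • D (e j) P - n0 j • D (e i) P) := by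
    ext a b
    simp only [D, Matrix.add_apply, Matrix.sub_apply, Matrix.smul_apply, smul_eq_mul]
    rw [← hB.ee i j (P a b)]
    ring
  have hQ : ∀ k, D (e k) Pᵀ = - (Pᵀ * D (e k) P * Pᵀ) := by
    intro k
    have h1 : D (e k) Pᵀ * P + Pᵀ * D (e k) P = 0 := by
      rw [← D_mul, hQP, D_one]
    calc D (e k) Pᵀ = D (e k) Pᵀ * (P * Pᵀ) := by rw [hPQ, mul_one]
      _ = (D (e k) Pᵀ * P) * Pᵀ := by rw [mul_assoc]
      _ = (-(Pᵀ * D (e k) P)) * Pᵀ := by rw [eq_neg_of_add_eq_zero_left h1]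
      _ = _ := by rw [neg_mul]
  have hm : ∀ k l, W' k * W' l = D (e k) P * Pᵀ * D (e l) P * Pᵀ + D (e k) P * W l * Pᵀ
      + P * W k * Pᵀ * D (e l) P * Pᵀ + P * W k * W l * Pᵀ := by
    intro k l
    rw [hW', hW']
    calc (D (e k) P * Pᵀ + P * W k * Pᵀ) * (D (e l) P * Pᵀ + P * W l * Pᵀ)
        = D (e k) P * Pᵀ * D (e l) P * Pᵀ + D (e k) P * (Pᵀ * P) * W l * Pᵀ
          + P * W k * Pᵀ * D (e l) P * Pᵀ + P * W k * (Pᵀ * P) * W l * Pᵀ := by noncomm_ring
      _ = _ := by rw [hQP, mul_one, mul_one]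
  have hD : ∀ k l, D (e k) (W' l) = D (e k) (D (e l) P) * Pᵀ
      - D (e l) P * Pᵀ * D (e k) P * Pᵀ + (D (e k) P * W l * Pᵀ + P * D (e k) (W l) * Pᵀ)
      - P * W l * Pᵀ * D (e k) P * Pᵀ := by
    intro k l
    rw [hW', D_add, D_mul, D_mul, D_mul, hQ]
    noncomm_ring
  have hs : ∀ (c : 𝒜) k, c • W' k = (c • D (e k) P) * Pᵀ + P * (c • W k) * Pᵀ := by
    intro c k
    rw [hW', smul_add, smul_mul_assoc, mul_smul_comm, smul_mul_assoc]
  rw [hm, hm, hD, hD, hs, hs, hc]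
  noncomm_ring

/-- transformed torsion -/
theorem T_gauge (e : Ix n → Derivation ℝ 𝒜 𝒜) (n0 : Ix n → 𝒜)
    (P : Matrix (Ix n) (Ix n) 𝒜) (W W' : Ix n → Matrix (Ix n) (Ix n) 𝒜)
    (R R' : Ix n → Matrix (Fin 1) (Ix n) 𝒜) (hPQ : P * Pᵀ = 1) (hQP : Pᵀ * P = 1)
    (hW' : ∀ i, W' i = D (e i) P * Pᵀ + P * W i * Pᵀ) (hR' : ∀ i, R' i = R i * Pᵀ) (i j : Ix n) :
    D (e i) (R' j) - D (e j) (R' i) + (R' j * W' i - R' i * W' j) - (n0 i • R' j - n0 j • R' i) =
    (D (e i) (R j) - D (e j) (R i) + (R j * W i - R i * W j) - (n0 i • R j - n0 j • R i)) * Pᵀ := by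
  have hQ : ∀ k, D (e k) Pᵀ = - (Pᵀ * D (e k) P * Pᵀ) := by
    intro k
    have h1 : D (e k) Pᵀ * P + Pᵀ * D (e k) P = 0 := by
      rw [← D_mul, hQP, D_one]
    calc D (e k) Pᵀ = D (e k) Pᵀ * (P * Pᵀ) := by rw [hPQ, mul_one]
      _ = (D (e k) Pᵀ * P) * Pᵀ := by rw [mul_assoc]
      _ = (-(Pᵀ * D (e k) P)) * Pᵀ := by rw [eq_neg_of_add_eq_zero_left h1]
      _ = _ := by rw [neg_mul]
  have hm : ∀ k l, R' k * W' l = R k * (Pᵀ * D (e l) P * Pᵀ) + R k * W l * Pᵀ := by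
    intro k l
    rw [hR', hW', Matrix.mul_add, Matrix.mul_assoc (R k), Matrix.mul_assoc (R k),
      ← Matrix.mul_assoc Pᵀ (D (e l) P), ← Matrix.mul_assoc Pᵀ (P * W l), ← Matrix.mul_assoc Pᵀ P,
      hQP, Matrix.one_mul, ← Matrix.mul_assoc (R k) (W l)]
  have hD : ∀ k l, D (e k) (R' l) = D (e k) (R l) * Pᵀ - R l * (Pᵀ * D (e k) P * Pᵀ) := by
    intro k l
    rw [hR', D_mul, hQ, Matrix.mul_neg, sub_eq_add_neg]
  have hs : ∀ (c : 𝒜) k, c • R' k = (c • R k) * Pᵀ := by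
    intro c k
    rw [hR', Matrix.smul_mul]
  rw [hm, hm, hD, hD, hs, hs]
  simp only [Matrix.add_mul, Matrix.sub_mul]
  abel

end Alg

theorem sum4 {𝒜 ι κ β δ : Type} [CommRing 𝒜] [Fintype ι] [Fintype κ] [Fintype β] [Fintype δ]
    (X : β → δ → ι → κ → 𝒜) :
    ∑ b, ∑ d, ∑ i, ∑ j, X b d i j = ∑ i, ∑ j, ∑ b, ∑ d, X b d i j := by
  have h1 : ∑ b, ∑ d, ∑ i, ∑ j, X b d i j =
      ∑ p : β × δ, ∑ q : ι × κ, X p.1 p.2 q.1 q.2 := by
    simp only [Fintype.sum_prod_type]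
  have h2 : ∑ i, ∑ j, ∑ b, ∑ d, X b d i j =
      ∑ q : ι × κ, ∑ p : β × δ, X p.1 p.2 q.1 q.2 := by
    simp only [Fintype.sum_prod_type]
  rw [h1, h2, Finset.sum_comm]

theorem gau : Pool.Agent.Helper36.RN.G_GAU := by
  intro _ hLCI n 𝒜 _ _ e n0 A θ O w hB hC hta hO hO' a c
  -- matrices
  set P : Matrix (Ix n) (Ix n) 𝒜 := Matrix.of O with hP
  have hPQ : P * Pᵀ = 1 := by
    ext a b
    simp only [hP, Matrix.mul_apply, Matrix.transpose_apply, Matrix.of_apply, Matrix.one_apply]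
    exact hO a b
  have hQP : Pᵀ * P = 1 := by
    ext a b
    simp only [hP, Matrix.mul_apply, Matrix.transpose_apply, Matrix.of_apply, Matrix.one_apply]
    exact hO' a b
  set W : Ix n → Matrix (Ix n) (Ix n) 𝒜 := fun i => Matrix.of (w i) with hW
  set w' : Ix n → Ix n → Ix n → 𝒜 := fun i c d => (D (e i) P * Pᵀ + P * W i * Pᵀ) c d with hw'
  set W' : Ix n → Matrix (Ix n) (Ix n) 𝒜 := fun i => Matrix.of (w' i) with hW'
  have hW'e : ∀ i, W' i = D (e i) P * Pᵀ + P * W i * Pᵀ := fun i => rfl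
  set A' : Ix n → Ix n → 𝒜 := fun a i => ∑ b, O a b * A b i with hA'
  set θ' : Ix n → Ix n → 𝒜 := fun i a => ∑ b, θ i b * O a b with hθ'
  have mA' : (Matrix.of A' : Matrix (Ix n) (Ix n) 𝒜) = P * Matrix.of A := by
    ext a b
    simp only [hA', hP, Matrix.mul_apply, Matrix.of_apply]
  have mθ' : (Matrix.of θ' : Matrix (Ix n) (Ix n) 𝒜) = Matrix.of θ * Pᵀ := by
    ext a b
    simp only [hθ', hP, Matrix.mul_apply, Matrix.of_apply, Matrix.transpose_apply]
  have hAt : (Matrix.of A : Matrix (Ix n) (Ix n) 𝒜) * Matrix.of θ = 1 := by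
    ext a b
    simp only [Matrix.mul_apply, Matrix.of_apply, Matrix.one_apply]
    exact hC.At a b
  have htA : (Matrix.of θ : Matrix (Ix n) (Ix n) 𝒜) * Matrix.of A = 1 := by
    ext a b
    simp only [Matrix.mul_apply, Matrix.of_apply, Matrix.one_apply]
    exact hC.tA a b
  have hCH' : CH A' θ' w' := by
    refine ⟨fun a b => ?_, fun i j => ?_, fun i c d => ?_⟩
    · have h : (Matrix.of A' : Matrix (Ix n) (Ix n) 𝒜) * Matrix.of θ' = 1 := by
        rw [mA', mθ', ← Matrix.mul_assoc, Matrix.mul_assoc P, hAt, Matrix.mul_one, hPQ]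
      have h2 := congrFun (congrFun h a) b
      simpa only [Matrix.mul_apply, Matrix.of_apply, Matrix.one_apply] using h2
    · have h : (Matrix.of θ' : Matrix (Ix n) (Ix n) 𝒜) * Matrix.of A' = 1 := by
        rw [mA', mθ', ← Matrix.mul_assoc, Matrix.mul_assoc _ Pᵀ, hQP, Matrix.mul_one, htA]
      have h2 := congrFun (congrFun h i) j
      simpa only [Matrix.mul_apply, Matrix.of_apply, Matrix.one_apply] using h2
    · have hWT : (W i)ᵀ = - W i := by
        ext a b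
        simp only [hW, Matrix.transpose_apply, Matrix.of_apply, Matrix.neg_apply]
        exact hC.anti i b a
      have h1 : D (e i) P * Pᵀ + P * D (e i) Pᵀ = 0 := by
        rw [← D_mul, hPQ, D_one]
      have h : (W' i)ᵀ = - W' i := by
        have h5 : P * D (e i) Pᵀ = -(D (e i) P * Pᵀ) := eq_neg_of_add_eq_zero_right h1
        rw [hW'e, Matrix.transpose_add, Matrix.transpose_mul, Matrix.transpose_mul,
          Matrix.transpose_mul, Matrix.transpose_transpose, hWT, ← D_transpose, h5]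
        noncomm_ring
      have h2 := congrFun (congrFun h d) c
      simpa only [Matrix.transpose_apply, Matrix.neg_apply, hW', Matrix.of_apply] using h2
  -- torsion
  have hT : ∀ i j c, TC.T e n0 θ w i j c = 0 := by
    intro i j c
    have h1 : ∑ a, ∑ b, θ i a * θ j b * TC.ta e n0 A θ w a b c = TC.T e n0 θ w i j c := by
      have h2 : ∀ a b, θ i a * θ j b * TC.ta e n0 A θ w a b c =
          ∑ k, ∑ l, (θ i a * A a k) * ((θ j b * A b l) * TC.T e n0 θ w k l c) := by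
        intro a b
        rw [TC.ta, Finset.mul_sum]
        refine Finset.sum_congr rfl fun k _ => ?_
        rw [Finset.mul_sum]
        refine Finset.sum_congr rfl fun l _ => ?_
        ring
      simp only [h2]
      have h3 : ∑ a, ∑ b, ∑ k, ∑ l, (θ i a * A a k) * ((θ j b * A b l) * TC.T e n0 θ w k l c)
          = ∑ k, ∑ l, (∑ a, θ i a * A a k) * ((∑ b, θ j b * A b l) * TC.T e n0 θ w k l c) := by
        simp only [Finset.sum_mul, Finset.mul_sum]
        rw [Finset.sum_congr rfl fun a _ => Finset.sum_comm, Finset.sum_comm]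
        refine Finset.sum_congr rfl fun k _ => ?_
        rw [Finset.sum_congr rfl fun a _ => Finset.sum_comm, Finset.sum_comm]
        refine Finset.sum_congr rfl fun l _ => ?_
        rw [Finset.sum_comm]
      rw [h3]
      simp only [hC.tA]
      rw [Finset.sum_eq_single i, Finset.sum_eq_single j]
      · simp
      · intro l _ hl
        rw [if_neg (Ne.symm hl)]
        simp
      · simp
      · intro k _ hk
        rw [if_neg (Ne.symm hk)]
        simp
      · simp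
    rw [← h1]
    simp only [hta, mul_zero, Finset.sum_const_zero]
  have hT' : ∀ i j c, TC.T e n0 θ' w' i j c = 0 := by
    intro i j c
    have h := T_mat e n0 θ' w' (fun i => Matrix.of (fun _ => θ' i)) W' (fun _ => rfl)
      (fun _ => rfl) i j
    have h2 := T_mat e n0 θ w (fun i => Matrix.of (fun _ => θ i)) W (fun _ => rfl)
      (fun _ => rfl) i j
    have h3 := T_gauge e n0 P W W' (fun i => Matrix.of (fun _ => θ i))
      (fun i => Matrix.of (fun _ => θ' i)) hPQ hQP hW'e (fun i => by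
        ext a b
        simp only [hθ', hP, Matrix.mul_apply, Matrix.of_apply, Matrix.transpose_apply]) i j
    rw [← h, ← h2] at h3
    have h4 := congrFun (congrFun h3 0) c
    rw [Matrix.mul_apply, Matrix.of_apply] at h4
    rw [h4]
    refine Finset.sum_eq_zero fun k _ => ?_
    rw [Matrix.of_apply, hT, zero_mul]
  have hta' : ∀ a b c, TC.ta e n0 A' θ' w' a b c = 0 := by
    intro a b c
    rw [TC.ta]
    refine Finset.sum_eq_zero fun i _ => Finset.sum_eq_zero fun j _ => ?_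
    rw [hT', mul_zero]
  rw [((hLCI n 𝒜 e n0 A' θ').2 w' hCH' hta').2.2 a c]
  -- curvature
  have hF : ∀ i j, (Matrix.of (TC.F e n0 w' i j) : Matrix (Ix n) (Ix n) 𝒜) =
      P * Matrix.of (TC.F e n0 w i j) * Pᵀ := by
    intro i j
    rw [F_mat e n0 w' W' (fun _ => rfl), F_mat e n0 w W (fun _ => rfl)]
    exact F_gauge e n0 hB P W W' hPQ hQP hW'e i j
  have hG : ∀ i j k d, ∑ b, A' b k * TC.F e n0 w' i j b d =
      ∑ s, (∑ b, A b k * TC.F e n0 w i j b s) * O d s := by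
    intro i j k d
    have h : (Matrix.of A' : Matrix (Ix n) (Ix n) 𝒜)ᵀ * Matrix.of (TC.F e n0 w' i j) =
        (Matrix.of A : Matrix (Ix n) (Ix n) 𝒜)ᵀ * Matrix.of (TC.F e n0 w i j) * Pᵀ := by
      rw [hF, mA', Matrix.transpose_mul, ← Matrix.mul_assoc, ← Matrix.mul_assoc,
        Matrix.mul_assoc _ Pᵀ P, hQP, Matrix.mul_one]
    have h2 := congrFun (congrFun h k) d
    simpa only [Matrix.mul_apply, Matrix.of_apply, Matrix.transpose_apply, hP] using h2
  have hS : ∀ (A : Ix n → Ix n → 𝒜) (w : Ix n → Ix n → Ix n → 𝒜) a c, TC.Sr e n0 A w a c =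
      ∑ i, ∑ j, A a i * ∑ b, A b j * TC.F e n0 w i j b c := by
    intro A w a c
    simp only [TC.Sr, TC.K]
    rw [Finset.sum_comm]
    refine Finset.sum_congr rfl fun i _ => ?_
    rw [Finset.sum_comm]
    refine Finset.sum_congr rfl fun j _ => ?_
    rw [Finset.mul_sum]
    exact Finset.sum_congr rfl fun b _ => by ring
  rw [hS]
  simp only [hG, hS]
  generalize hg : (fun i j s => ∑ b, A b j * TC.F e n0 w i j b s) = g
  have hg' : ∀ i j s, ∑ b, A b j * TC.F e n0 w i j b s = g i j s := fun i j s => by rw [← hg]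
  simp only [hg', hA', Finset.mul_sum, Finset.sum_mul]
  rw [sum4 (fun b d i j => O a b * O c d * (A b i * g i j d))]
  refine Finset.sum_congr rfl fun i _ => Finset.sum_congr rfl fun j _ => ?_
  rw [Finset.sum_comm]
  exact Finset.sum_congr rfl fun b _ => Finset.sum_congr rfl fun d _ => by ring

end Pool.Agent.Helper93.RN
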